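import Pool.Agent.R101.CrossSperner3

/-!
# The maximum number of intersections of cross-Sperner families, `n` odd

For every `n = 2 d + 1` the maximum number of pairwise intersections `A ∩ B` of cross-Sperner
families `𝒜, ℬ` of subsets of an `n`-element set is `2 ^ n - 2 ^ (d + 1) - 2 ^ d + 1`.
-/

set_option autoImplicit false

namespace Pool.Agent.Results.MP_841146_co.OddExact

open Finset

/-- `𝒜` and `ℬ` are cross-Sperner: no member of one is contained in a member of the other. -/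
def CrossSperner {n : ℕ} (𝒜 ℬ : Finset (Finset (Fin n))) : Prop :=
  ∀ A ∈ 𝒜, ∀ B ∈ ℬ, ¬ A ⊆ B ∧ ¬ B ⊆ A

/-- The set of all intersections `A ∩ B`, `A ∈ 𝒜`, `B ∈ ℬ`. -/
def inters {n : ℕ} (𝒜 ℬ : Finset (Finset (Fin n))) : Finset (Finset (Fin n)) :=
  (𝒜 ×ˢ ℬ).image fun p => p.1 ∩ p.2

open Classical in
/-- `m n`: the maximum number of intersections of two cross-Sperner families of subsets of
`Fin n`. -/
noncomputable def m (n : ℕ) : ℕ :=
  ((univ : Finset (Finset (Finset (Fin n)) × Finset (Finset (Fin n)))).filter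
    fun p => CrossSperner p.1 p.2).sup fun p => #(inters p.1 p.2)

/-- the upper bound -/
lemma upper (d : ℕ) (𝒜 ℬ : Finset (Finset (Fin (2 * d + 1)))) (h : CrossSperner 𝒜 ℬ) :
    #(inters 𝒜 ℬ) + 3 * 2 ^ d ≤ 2 * (2 ^ d) ^ 2 + 1 := by
  have h1 := Pool.Agent.R101.CS.main d (Fintype.card_fin _) (𝒜.image fun S => Sᶜ)
    (ℬ.image fun S => Sᶜ) (by
      intro a ha b hb
      rw [mem_image] at ha hb
      obtain ⟨A, hA, rfl⟩ := ha
      obtain ⟨B, hB, rfl⟩ := hb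
      rw [compl_subset_compl, compl_subset_compl]
      exact ⟨(h A hA B hB).2, (h A hA B hB).1⟩)
  have h2 : #(inters 𝒜 ℬ) = #(Pool.Agent.R101.CS.un (𝒜.image fun S => Sᶜ)
      (ℬ.image fun S => Sᶜ)) := by
    have h3 : Pool.Agent.R101.CS.un (𝒜.image fun S => Sᶜ) (ℬ.image fun S => Sᶜ) =
        (inters 𝒜 ℬ).image fun S => Sᶜ := by
      ext C
      rw [Pool.Agent.R101.CS.mem_un, mem_image]
      constructor
      · rintro ⟨P, hP, Q, hQ, rfl⟩
        rw [mem_image] at hP hQ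
        obtain ⟨A, hA, rfl⟩ := hP
        obtain ⟨B, hB, rfl⟩ := hQ
        exact ⟨A ∩ B, mem_image.2 ⟨(A, B), mem_product.2 ⟨hA, hB⟩, rfl⟩, compl_inter _ _⟩
      · rintro ⟨S, hS, rfl⟩
        unfold inters at hS
        rw [mem_image] at hS
        obtain ⟨⟨A, B⟩, hAB, rfl⟩ := hS
        rw [mem_product] at hAB
        exact ⟨Aᶜ, mem_image.2 ⟨A, hAB.1, rfl⟩, Bᶜ, mem_image.2 ⟨B, hAB.2, rfl⟩,
          (compl_inter _ _).symm⟩
    rw [h3, card_image_of_injective _ compl_injective]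
  rw [h2]
  exact h1

/-- the construction -/
lemma lower (d : ℕ) : ∃ 𝒜 ℬ : Finset (Finset (Fin (2 * d + 1))), CrossSperner 𝒜 ℬ ∧
    #(inters 𝒜 ℬ) = (2 ^ d - 1) * (2 ^ (d + 1) - 1) := by
  classical
  obtain ⟨X, hX⟩ : ∃ X : Finset (Fin (2 * d + 1)), #X = d := by
    obtain ⟨X, _, hX⟩ := exists_subset_card_eq (s := (univ : Finset (Fin (2 * d + 1)))) (n := d)
      (by rw [card_univ, Fintype.card_fin]; omega)
    exact ⟨X, hX⟩
  have hXc : #(Xᶜ) = d + 1 := by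
    rw [card_compl, Fintype.card_fin, hX]; omega
  have hdis : Disjoint X Xᶜ := disjoint_compl_right
  refine ⟨X.ssubsets.image fun A => A ∪ Xᶜ, (Xᶜ).ssubsets.image fun B => X ∪ B, ?_, ?_⟩
  · intro a ha b hb
    rw [mem_image] at ha hb
    obtain ⟨A, hA, rfl⟩ := ha
    obtain ⟨B, hB, rfl⟩ := hb
    rw [mem_ssubsets] at hA hB
    constructor
    · intro h
      apply hB.2
      intro j hj
      have h1 := h (mem_union_right _ hj)
      rw [mem_union] at h1
      exact h1.resolve_left (mem_compl.1 hj)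
    · intro h
      apply hA.2
      intro j hj
      have h1 := h (mem_union_left _ hj)
      rw [mem_union, mem_compl] at h1
      exact h1.resolve_right (fun h2 => h2 hj)
  · have h1 : inters (X.ssubsets.image fun A => A ∪ Xᶜ) ((Xᶜ).ssubsets.image fun B => X ∪ B) =
        (X.ssubsets ×ˢ (Xᶜ).ssubsets).image fun p => p.1 ∪ p.2 := by
      have e : ∀ A ∈ X.ssubsets, ∀ B ∈ (Xᶜ).ssubsets, (A ∪ Xᶜ) ∩ (X ∪ B) = A ∪ B := by
        intro A hA B hB
        rw [mem_ssubsets] at hA hB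
        ext j
        have a1 : j ∈ A → j ∈ X := fun h => hA.1 h
        have b1 : j ∈ B → j ∉ X := fun h => mem_compl.1 (hB.1 h)
        simp only [mem_inter, mem_union, mem_compl]
        tauto
      unfold inters
      ext C
      simp only [mem_image, mem_product, Prod.exists]
      constructor
      · rintro ⟨a, b, ⟨⟨A, hA, rfl⟩, ⟨B, hB, rfl⟩⟩, rfl⟩
        exact ⟨A, B, ⟨hA, hB⟩, (e A hA B hB).symm⟩
      · rintro ⟨A, B, ⟨hA, hB⟩, rfl⟩
        exact ⟨A ∪ Xᶜ, X ∪ B, ⟨⟨A, hA, rfl⟩, ⟨B, hB, rfl⟩⟩, e A hA B hB⟩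
    have hcard : ∀ S : Finset (Fin (2 * d + 1)), #S.ssubsets = 2 ^ #S - 1 := by
      intro S
      unfold ssubsets
      rw [card_erase_of_mem (mem_powerset_self S), card_powerset]
    rw [h1, card_image_of_injOn, card_product, hcard, hcard, hX, hXc]
    rintro ⟨A, B⟩ h ⟨A', B'⟩ h' heq
    simp only [mem_coe, mem_product, mem_ssubsets] at h h'
    have e1 : A ∪ B = A' ∪ B' := heq
    obtain ⟨s1, s2⟩ := Pool.Agent.R101.CS.split hdis h.1.1 h.2.1
    obtain ⟨t1, t2⟩ := Pool.Agent.R101.CS.split hdis h'.1.1 h'.2.1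
    rw [Prod.mk.injEq]
    constructor
    · rw [← s1, ← t1, e1]
    · rw [← s2, ← t2, e1]

/-- **Main theorem.** For every odd `n = 2 d + 1` the maximum number of intersections of two
cross-Sperner families of subsets of an `n`-element set is `2 ^ n - 2 ^ (d + 1) - 2 ^ d + 1`. -/
theorem result (d : ℕ) :
    (m (2 * d + 1) : ℤ) = 2 ^ (2 * d + 1) - 2 ^ (d + 1) - 2 ^ d + 1 := by
  classical
  have hN1 : 1 ≤ 2 ^ d := Nat.one_le_two_pow
  have hN2 : 1 ≤ 2 ^ (d + 1) := Nat.one_le_two_pow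
  have h1 : m (2 * d + 1) + 3 * 2 ^ d ≤ 2 * (2 ^ d) ^ 2 + 1 := by
    have hb : m (2 * d + 1) ≤ 2 * (2 ^ d) ^ 2 + 1 - 3 * 2 ^ d := by
      unfold m
      refine Finset.sup_le fun p hp => ?_
      have := upper d p.1 p.2 (mem_filter.1 hp).2
      omega
    have h3 : 3 * 2 ^ d ≤ 2 * (2 ^ d) ^ 2 + 1 := by nlinarith
    omega
  have h2 : (2 ^ d - 1) * (2 ^ (d + 1) - 1) ≤ m (2 * d + 1) := by
    obtain ⟨𝒜, ℬ, hc, he⟩ := lower d
    rw [← he]
    unfold m
    exact Finset.le_sup (f := fun p : Finset (Finset (Fin (2 * d + 1))) ×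
      Finset (Finset (Fin (2 * d + 1))) => #(inters p.1 p.2))
      (mem_filter.2 ⟨mem_univ (𝒜, ℬ), hc⟩)
  have h1' : (m (2 * d + 1) : ℤ) + 3 * 2 ^ d ≤ 2 * (2 ^ d) ^ 2 + 1 := by exact_mod_cast h1
  have h2' : ((2 : ℤ) ^ d - 1) * (2 ^ (d + 1) - 1) ≤ m (2 * d + 1) := by
    have h3 : (((2 ^ d - 1) * (2 ^ (d + 1) - 1) : ℕ) : ℤ) ≤ m (2 * d + 1) := by exact_mod_cast h2
    rw [Nat.cast_mul, Nat.cast_sub hN1, Nat.cast_sub hN2] at h3
    push_cast at h3
    exact h3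
  have e1 : (2 : ℤ) ^ (2 * d + 1) = 2 * (2 ^ d) ^ 2 := by ring
  have e2 : (2 : ℤ) ^ (d + 1) = 2 * 2 ^ d := by ring
  rw [e2] at h2'
  rw [e1, e2]
  apply le_antisymm
  · linarith
  · nlinarith

end Pool.Agent.Results.MP_841146_co.OddExact
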